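import Pool.Agent.Lib.MP_3ee548_nt.RS.Iface

set_option autoImplicit false

open scoped BigOperators
open Classical

namespace Pool.Agent.Lib.MP_3ee548_nt.RS.H59

open Pool.Agent.Lib.MP_3ee548_nt.RS

lemma count_one (j : ℕ) (T w : ℝ) (hT : 0 < T) :
    (((blk j).filter (fun d : ℕ => |sqf d - w| ≤ 1 / T)).card : ℝ)
      ≤ 1 + 6 * Real.sqrt ((2 : ℝ) ^ j) / T := by
  set S := (blk j).filter (fun d : ℕ => |sqf d - w| ≤ 1 / T) with hS
  have hpos : 0 ≤ 6 * Real.sqrt ((2 : ℝ) ^ j) / T := by positivity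
  rcases S.eq_empty_or_nonempty with h | h
  · rw [h]; simp; linarith
  · set m := S.min' h
    set M := S.max' h
    have hm : m ∈ S := S.min'_mem h
    have hM : M ∈ S := S.max'_mem h
    have hmM : m ≤ M := S.min'_le M hM
    have hsub : S ⊆ Finset.Icc m M := by
      intro x hx
      exact Finset.mem_Icc.2 ⟨S.min'_le x hx, S.le_max' x hx⟩
    have hcard : (S.card : ℝ) ≤ (M : ℝ) - m + 1 := by
      have h1 := Finset.card_le_card hsub
      rw [Nat.card_Icc] at h1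
      have h2 : ((M + 1 - m : ℕ) : ℝ) = (M : ℝ) - m + 1 := by
        rw [Nat.cast_sub (by omega)]; push_cast; ring
      calc (S.card : ℝ) ≤ ((M + 1 - m : ℕ) : ℝ) := by exact_mod_cast h1
        _ = _ := h2
    have hm' := Finset.mem_filter.1 hm
    have hM' := Finset.mem_filter.1 hM
    have hMlt : (M : ℝ) ≤ 2 * (2 : ℝ) ^ j := by
      have := (Finset.mem_Ico.1 hM'.1).2
      have h2 : (M : ℝ) ≤ ((2 ^ (j + 1) : ℕ) : ℝ) := by exact_mod_cast this.le
      push_cast at h2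
      rw [pow_succ] at h2; linarith
    have hmlt : (m : ℝ) ≤ 2 * (2 : ℝ) ^ j := le_trans (by exact_mod_cast hmM) hMlt
    have h1 := abs_le.1 hm'.2
    have h2 := abs_le.1 hM'.2
    have hdiff : sqf M - sqf m ≤ 2 / T := by
      have : (2 : ℝ) / T = 1 / T + 1 / T := by ring
      rw [this]; linarith [h1.1, h2.2]
    have hdiff0 : 0 ≤ sqf M - sqf m := by
      have : sqf m ≤ sqf M := Real.sqrt_le_sqrt (by exact_mod_cast hmM)
      linarith
    have hs : ∀ x : ℕ, (x : ℝ) ≤ 2 * (2 : ℝ) ^ j → sqf x ≤ 3 / 2 * Real.sqrt ((2 : ℝ) ^ j) := by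
      intro x hx
      have h3 : sqf x ≤ Real.sqrt (2 * (2 : ℝ) ^ j) := Real.sqrt_le_sqrt hx
      have h4 : Real.sqrt (2 * (2 : ℝ) ^ j) ≤ 3 / 2 * Real.sqrt ((2 : ℝ) ^ j) := by
        rw [show (3 : ℝ) / 2 * Real.sqrt ((2 : ℝ) ^ j) = Real.sqrt ((3 / 2) ^ 2 * (2 : ℝ) ^ j) by
          rw [Real.sqrt_mul (by positivity), Real.sqrt_sq (by norm_num)]]
        apply Real.sqrt_le_sqrt
        have : (0 : ℝ) < (2 : ℝ) ^ j := by positivity
        nlinarith
      linarith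
    have hprod : (M : ℝ) - m = (sqf M - sqf m) * (sqf M + sqf m) := by
      unfold sqf
      have e1 := Real.mul_self_sqrt (show (0 : ℝ) ≤ (M : ℝ) by positivity)
      have e2 := Real.mul_self_sqrt (show (0 : ℝ) ≤ (m : ℝ) by positivity)
      ring_nf
      ring_nf at e1 e2
      rw [e1, e2]
    have hsum : sqf M + sqf m ≤ 3 * Real.sqrt ((2 : ℝ) ^ j) := by
      have := hs M hMlt
      have := hs m hmlt
      linarith
    have hfin : (M : ℝ) - m ≤ 2 / T * (3 * Real.sqrt ((2 : ℝ) ^ j)) := by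
      rw [hprod]
      apply mul_le_mul hdiff hsum
      · unfold sqf; positivity
      · positivity
    have : 2 / T * (3 * Real.sqrt ((2 : ℝ) ^ j)) = 6 * Real.sqrt ((2 : ℝ) ^ j) / T := by ring
    rw [this] at hfin
    linarith

theorem triva : TrivaStatement := by
  refine ⟨6, by norm_num, ?_⟩
  intro j T hT
  have hcard : (blk j).card = 2 ^ j := by
    unfold blk; rw [Nat.card_Ico, pow_succ]; omega
  set D := blk j with hD
  have key : Q sqf D T ≤ ∑ p ∈ (D ×ˢ D) ×ˢ D,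
      (((D).filter (fun d : ℕ => |sqf d - (sqf p.1.1 + sqf p.1.2 - sqf p.2)| ≤ 1 / T)).card : ℝ) := by
    unfold Q PC
    have hinj : (((D ×ˢ D) ×ˢ (D ×ˢ D)).filter (fun p : (ℕ × ℕ) × (ℕ × ℕ) =>
        |sqf p.1.1 + sqf p.1.2 - (sqf p.2.1 + sqf p.2.2)| ≤ 1 / T)).card
        ≤ (((D ×ˢ D) ×ˢ D).sigma (fun p => (D).filter (fun d : ℕ =>
          |sqf d - (sqf p.1.1 + sqf p.1.2 - sqf p.2)| ≤ 1 / T))).card := by
      apply Finset.card_le_card_of_injOn
        (fun p : (ℕ × ℕ) × (ℕ × ℕ) => (⟨(p.1, p.2.1), p.2.2⟩ : Σ _ : (ℕ × ℕ) × ℕ, ℕ))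
      · intro p hp
        have hp' := Finset.mem_filter.1 (Finset.mem_coe.1 hp)
        simp only [Finset.mem_product] at hp'
        simp only [Finset.coe_sigma, Set.mem_sigma_iff, Finset.mem_coe, Finset.mem_product,
          Finset.mem_filter]
        refine ⟨⟨hp'.1.1, hp'.1.2.1⟩, hp'.1.2.2, ?_⟩
        have := hp'.2
        rw [abs_sub_comm] at this
        convert this using 2
        ring
      · intro p _ q _ h
        simp only [Sigma.mk.injEq, Prod.mk.injEq, heq_eq_eq] at h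
        obtain ⟨⟨h1, h2⟩, h3⟩ := h
        exact Prod.ext h1 (Prod.ext h2 h3)
    rw [Finset.card_sigma] at hinj
    exact_mod_cast hinj
  refine key.trans ?_
  have hb : ∀ p ∈ (D ×ˢ D) ×ˢ D,
      (((D).filter (fun d : ℕ => |sqf d - (sqf p.1.1 + sqf p.1.2 - sqf p.2)| ≤ 1 / T)).card : ℝ)
        ≤ 1 + 6 * Real.sqrt ((2 : ℝ) ^ j) / T := fun p _ => count_one j T _ hT
  refine (Finset.sum_le_sum hb).trans ?_
  rw [Finset.sum_const, nsmul_eq_mul, Finset.card_product, Finset.card_product, hcard]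
  push_cast
  have h1 : (0 : ℝ) ≤ Real.sqrt ((2 : ℝ) ^ j) / T := by positivity
  have h2 : (0 : ℝ) < ((2 : ℝ) ^ j) ^ 3 := by positivity
  have h3 : 1 + 6 * Real.sqrt ((2 : ℝ) ^ j) / T ≤ 6 * (1 + Real.sqrt ((2 : ℝ) ^ j) / T) := by
    have : 6 * Real.sqrt ((2 : ℝ) ^ j) / T = 6 * (Real.sqrt ((2 : ℝ) ^ j) / T) := by ring
    rw [this]; linarith
  calc (2 : ℝ) ^ j * 2 ^ j * 2 ^ j * (1 + 6 * Real.sqrt ((2 : ℝ) ^ j) / T)
      = ((2 : ℝ) ^ j) ^ 3 * (1 + 6 * Real.sqrt ((2 : ℝ) ^ j) / T) := by ring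
    _ ≤ ((2 : ℝ) ^ j) ^ 3 * (6 * (1 + Real.sqrt ((2 : ℝ) ^ j) / T)) :=
        mul_le_mul_of_nonneg_left h3 h2.le
    _ = _ := by ring

end Pool.Agent.Lib.MP_3ee548_nt.RS.H59
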